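import Pool.Agent.helper37.NA.Spec
import Pool.Agent.helper38.L5.FRA5

set_option autoImplicit false

/-! # Row NFI of theorem NA -/

namespace Pool.Agent.NAB

open Pool.Agent.helper58.DC Pool.Agent.DI Pool.Agent.GR Pool.Agent.OB Pool.Agent.DR Pool.Agent.FI Pool.Agent.FI3 Pool.Agent.FI4 Pool.Agent.FI4I Pool.Agent.LE Pool.Agent.L5

theorem NFI (hCJG : CJG_stmt) (hIDM : IDM_stmt) (hCVF : CVF_stmt) (hEPR : EPR_stmt) : NFI_stmt := by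
  intro G _ _ M R₁ hnz ψ₁ hψ₁
  have hsub : Bl M (cz R₁) ψ₁ ⊆ IrrOn (cz R₁) := fun ψ hψ => hψ.1
  have hKc : ∀ h : G, (cz R₁).map (MulAut.conj h).toMonoidHom = cz R₁ := by
    intro h
    obtain ⟨-, -, -, -, h5, -⟩ := hCJG G M 2 h (cz R₁)
    rw [← h5 R₁]
    have hh : h ∈ nz R₁ := by rw [hnz]; exact Subgroup.mem_top h
    have : R₁.map (MulAut.conj h).toMonoidHom = R₁ := by
      ext y
      rw [show (y ∈ R₁.map (MulAut.conj h).toMonoidHom ↔ h⁻¹ * y * h ∈ R₁) from mem_cjS]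
      have h1 := (Subgroup.mem_normalizer_iff.1 hh (h⁻¹ * y * h))
      have h2 : h * (h⁻¹ * y * h) * h⁻¹ = y := by group
      rw [h2] at h1
      exact h1
    rw [this]
  have hIrr : ∀ h : G, ∀ ψ ∈ IrrOn (cz R₁), cjF h ψ ∈ IrrOn (cz R₁) := by
    intro h ψ hψ
    obtain ⟨h1, -⟩ := hCJG G M 2 h (cz R₁)
    have := h1 ψ hψ
    rwa [hKc h] at this
  have hSB : ∀ (h : G) (η ψ : G → ℂ), SB M (cz R₁) η ψ → SB M (cz R₁) (cjF h η) (cjF h ψ) := by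
    intro h η ψ hs
    obtain ⟨-, h2, -⟩ := hCJG G M 2 h (cz R₁)
    have := h2 η ψ hs
    rwa [hKc h] at this
  have hT : ∀ h ∈ TT M R₁ ψ₁, ∀ ψ ∈ Bl M (cz R₁) ψ₁, cjF h ψ ∈ Bl M (cz R₁) ψ₁ := by
    intro h hh ψ hψ
    exact ⟨hIrr h ψ hψ.1, (hSB h ψ ψ₁ hψ.2).trans hh.2⟩
  have hinv : ∀ h ∈ TT M R₁ ψ₁, cjF h '' Bl M (cz R₁) ψ₁ = Bl M (cz R₁) ψ₁ := fun h hh =>
    FRA5_im _ h (hT h hh) (hT _ ((TT M R₁ ψ₁).inv_mem hh))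
  refine ⟨fun h hh y => ?_, fun h hh => ?_⟩
  · have h1 := FRA5_e (cz R₁) (Bl M (cz R₁) ψ₁) h⁻¹ y
    rw [inv_inv, hinv _ ((TT M R₁ ψ₁).inv_mem hh)] at h1
    exact h1
  · have hfun : (fun y => eS (cz R₁) (Bl M (cz R₁) ψ₁) (h⁻¹ * y * h)) =
        eS (cz R₁) (cjF h '' Bl M (cz R₁) ψ₁) := by
      funext y
      exact FRA5_e _ _ _ _
    rw [hfun]
    have hsub' : cjF h '' Bl M (cz R₁) ψ₁ ⊆ IrrOn (cz R₁) := by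
      rintro _ ⟨ψ, hψ, rfl⟩
      exact hIrr h ψ hψ.1
    have hdis : ∀ ψ ∈ cjF h '' Bl M (cz R₁) ψ₁, ψ ∉ Bl M (cz R₁) ψ₁ := by
      rintro _ ⟨ψ, hψ, rfl⟩ hc
      apply hh
      refine ⟨?_, ((hSB h ψ ψ₁ hψ.2).symm).trans hc.2⟩
      rw [hnz]
      exact Subgroup.mem_top h
    obtain ⟨hCF, -, hid, -⟩ := hIDM G (cz R₁) (Bl M (cz R₁) ψ₁) hsub
    obtain ⟨hCF', -, hid', -⟩ := hIDM G (cz R₁) (cjF h '' Bl M (cz R₁) ψ₁) hsub'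
    exact hEPR G (cz R₁) (cjF h '' Bl M (cz R₁) ψ₁) (Bl M (cz R₁) ψ₁) hsub' hsub hdis _ _ hCF'.2 hCF.2 hid' hid

end Pool.Agent.NAB
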