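import Pool.Agent.helper37.NA.Spec
import Pool.Agent.helper59.FI.Base

set_option autoImplicit false

/-! # Row NUD of theorem NA -/

namespace Pool.Agent.NAB

open Pool.Agent.helper58.DC Pool.Agent.DI Pool.Agent.GR Pool.Agent.OB Pool.Agent.DR Pool.Agent.FI Pool.Agent.FI3 Pool.Agent.FI4 Pool.Agent.FI4I Pool.Agent.LE Pool.Agent.L5

theorem NUD (hNEG : NEG_stmt) (hNUC : NUC_stmt) (hDEX : DEX_stmt) (hCJG : CJG_stmt) : NUD_stmt := by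
  intro p e m M hS G _ _ L ψ hψ z x hU
  have h1 : ∀ (D : Subgroup G) (y : G), DefL p M L ψ D y → Nat.card D ≤ p ^ (e + m) ∧
      ∃ l ∈ L, l * z * l⁻¹ ∈ D ∧ ∀ d ∈ D, l * z * l⁻¹ * d = d * (l * z * l⁻¹) := by
    intro D y hD
    obtain ⟨h2, h3⟩ := hNUC p M hS G L ψ hψ D y hD z x hU.pe hU.re hU.co (L.mul_mem hU.zm hU.xm) hU.ne
    exact ⟨h2.trans hU.cd, h3⟩
  refine ⟨h1, ?_⟩
  obtain ⟨D₀, x₀, hD₀, _⟩ := hDEX p M hS G L ψ hψ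
  obtain ⟨hc, l, hl, hz, hcom⟩ := h1 D₀ x₀ hD₀
  have hl' : l⁻¹ ∈ L := L.inv_mem hl
  have h4 := (hCJG G M p l⁻¹ L).2.2.2.1 ψ D₀ x₀ hD₀
  rw [((hCJG G M p l⁻¹ L).2.2.2.2.2.1 hl' ψ).2, funMap_inner hψ hl'] at h4
  refine ⟨_, _, h4, ?_, ?_, (h1 _ _ h4).1⟩
  · change z ∈ cjS l⁻¹ D₀
    rw [mem_cjS, inv_inv]
    exact hz
  · intro d hd
    have hd' : d ∈ cjS l⁻¹ D₀ := hd
    rw [mem_cjS, inv_inv] at hd'
    have h5 := hcom _ hd'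
    calc z * d = l⁻¹ * (l * z * l⁻¹ * (l * d * l⁻¹)) * l := by group
      _ = l⁻¹ * (l * d * l⁻¹ * (l * z * l⁻¹)) * l := by rw [h5]
      _ = d * z := by group

end Pool.Agent.NAB
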