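import Pool.Agent.helper37.NA.Spec
import Pool.Agent.helper59.FI.Base

set_option autoImplicit false

/-! # Row NUG of theorem NA -/

namespace Pool.Agent.NAB

open Pool.Agent.helper58.DC Pool.Agent.DI Pool.Agent.GR Pool.Agent.OB Pool.Agent.DR Pool.Agent.FI Pool.Agent.FI3 Pool.Agent.FI4 Pool.Agent.FI4I Pool.Agent.LE Pool.Agent.L5

theorem NUG_ord {G : Type} [Group G] (g z : G) : orderOf (g * z * g⁻¹) = orderOf z :=
  orderOf_injective (MulAut.conj g).toMonoidHom (MulAut.conj g).injective z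

theorem NUG (hNEG : NEG_stmt) (hNEC : NEC_stmt) (hNUD : NUD_stmt) (hDEX : DEX_stmt) (hCNTL : CNTL_stmt) : NUG_stmt := by
  intro p e m M hS hme G _ _ H D' hpD hDH φ hφ θ hθ hSB w hw hwo z x hU
  obtain ⟨D, y, hD, _⟩ := hDEX p M hS G H φ hφ
  obtain ⟨l, hl, hlD⟩ := hCNTL p M hS G H D' hpD hDH θ hθ φ hSB D y hD
  obtain ⟨hc, l', hl', hz', hcom⟩ := (hNUD p e m M hS G H φ hφ z x hU).1 D y hD
  have h1 := (hNEC p e m hS.pr hme G D hD.pg hc (l' * z * l'⁻¹) hz' hcom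
    ((NUG_ord l' z).trans hU.od)).1 (l * w * l⁻¹) (hlD w hw) ((NUG_ord l w).trans hwo)
  rw [(hNEG p e hS.pr G w).1 l, (hNEG p e hS.pr G z).1 l'] at h1
  refine ⟨l'⁻¹ * l, H.mul_mem (H.inv_mem hl') hl, ?_⟩
  have h2 : cj (l'⁻¹ * l) (Eg p e w) = cj l'⁻¹ (cj l (Eg p e w)) := cj_mul _ _ _
  have h3 : cj l'⁻¹ (cj l' (Eg p e z)) = Eg p e z := cj_inv_cj _ _
  have h4 : cj l (Eg p e w) = cj l' (Eg p e z) := h1
  change Eg p e z = cj (l'⁻¹ * l) (Eg p e w)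
  rw [h2, h4, h3]

end Pool.Agent.NAB
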